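import Pool.Agent.Y875.UE.Stm2
import Pool.Agent.W332.SL6.LogC

/-!
# Universal Pepin test: Brumer's theorem in functional form
-/

set_option autoImplicit false

namespace Pool.Agent.Y547.UE.B

open Finset Pool.Agent.Y875.UE Pool.Agent.W289.SL Pool.Agent.W332.SL6
open Pool.Agent.W254.PA (ic norm_ic exists_pow_near)

theorem nearU (τ : QB →+* ℂ_[2]) (α : QB) (h : ‖τ α‖ = 1) : NearU (τ α) := by
  have halg : IsAlgebraic ℚ (τ α) := by
    have h1 : IsAlgebraic ℚ α := (AlgebraicClosure.isAlgebraic ℚ).isAlgebraic α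
    exact h1.algHom (RingHom.toRatAlgHom τ)
  refine ⟨?_, halg, ?_⟩
  · intro h0
    rw [h0, norm_zero] at h
    exact zero_ne_one h
  · intro δ hδ
    obtain ⟨v, -, hv⟩ := pre_alg halg
    have h1 : ‖v‖ = 1 := by
      rw [← norm_ic, hv]
      exact h
    obtain ⟨N, hN, h2⟩ := exists_pow_near 2 v h1 δ hδ
    refine ⟨N, hN, ?_⟩
    rw [← hv]
    have h3 : ic 2 v ^ N - 1 = ic 2 (v ^ N - 1) := by rw [map_sub, map_pow, map_one]
    rw [h3, norm_ic]
    exact h2

/-- the homomorphism on the units -/
noncomputable def hom {A : Type} [AddCommGroup A] (w : QB → A)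
    (hw : ∀ x y : QB, x ≠ 0 → y ≠ 0 → w (x * y) = w x + w y) : QBˣ →* Multiplicative A :=
  MonoidHom.mk' (fun u => Multiplicative.ofAdd (w (u : QB))) fun a b => by
    rw [Units.val_mul, hw _ _ a.ne_zero b.ne_zero, ofAdd_add]

theorem hom_prod {A : Type} [AddCommGroup A] (w : QB → A)
    (hw : ∀ x y : QB, x ≠ 0 → y ≠ 0 → w (x * y) = w x + w y) {ι : Type} (s : Finset ι)
    (x : ι → QBˣ) (g : ι → ℤ) :
    w ((∏ i ∈ s, x i ^ g i : QBˣ) : QB) = ∑ i ∈ s, g i • w (x i : QB) := by
  have h1 := map_prod (hom w hw) (fun i => x i ^ g i) s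
  have h2 := congrArg Multiplicative.toAdd h1
  rw [toAdd_prod] at h2
  refine h2.trans (sum_congr rfl fun i _ => ?_)
  rw [map_zpow, toAdd_zpow]
  rfl

theorem key {L : ℂ_[2] → ℂ_[2]} (hL : IsIwasawaLog 2 L) (τ : QB →+* ℂ_[2]) {T : Type} [Field T]
    [CharZero T] (σ : QB →+* T) (v : QB → T)
    (hv : ∀ x y : QB, x ≠ 0 → y ≠ 0 → v (x * y) = v x + v y) (n : ℕ) :
    ∀ (s : Finset {α : QB // ‖τ α‖ = 1}) (_ : s.card = n) (a : {α : QB // ‖τ α‖ = 1} → QB)
      (_ : ∑ i ∈ s, τ (a i) * L (τ i) = 0), ∑ i ∈ s, σ (a i) * v i = 0 := by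
  classical
  induction n with
  | zero =>
    intro s hs a _
    rw [Finset.card_eq_zero.1 hs, sum_empty]
  | succ n ih =>
    intro s hs a ha
    have hne : ∀ i : {α : QB // ‖τ α‖ = 1}, (i : QB) ≠ 0 := by
      intro i h0
      have h1 := i.2
      rw [h0, map_zero, norm_zero] at h1
      exact zero_ne_one h1
    by_cases hli : LinearIndependent ℚ fun i : s => L (τ (i : {α : QB // ‖τ α‖ = 1}))
    · have h1 := brumerC hL (fun i : s => τ ((i : {α : QB // ‖τ α‖ = 1}) : QB))
        (fun i => nearU τ _ i.1.2) hli (fun i => τ (a i)) (fun i => by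
          have h1 : IsAlgebraic ℚ (a i) := (AlgebraicClosure.isAlgebraic ℚ).isAlgebraic (a i)
          exact h1.algHom (RingHom.toRatAlgHom τ)) (by
          rw [← ha, ← Finset.sum_coe_sort s])
      refine Finset.sum_eq_zero fun i hi => ?_
      have h2 : τ (a i) = 0 := h1 ⟨i, hi⟩
      rw [(map_eq_zero τ).1 h2, map_zero, zero_mul]
    · rw [← LinearIndependent.iff_fractionRing ℤ ℚ, Fintype.not_linearIndependent_iff] at hli
      obtain ⟨g, hg, ⟨j, hj⟩, hgj⟩ := hli
      -- extend `g`
      set g' : {α : QB // ‖τ α‖ = 1} → ℤ := fun i => if h : i ∈ s then g ⟨i, h⟩ else 0 with hg'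
      have hg1 : ∑ i ∈ s, g' i • L (τ i) = 0 := by
        rw [← hg, ← Finset.sum_coe_sort s]
        refine Finset.sum_congr rfl fun i _ => ?_
        rw [hg']
        simp only [Finset.coe_mem, dite_true]
      have hgj' : g' j ≠ 0 := by
        rw [hg']
        simp only [hj, dite_true]
        exact hgj
      set x : {α : QB // ‖τ α‖ = 1} → QBˣ := fun i => Units.mk0 (i : QB) (hne i) with hx
      set β : QBˣ := ∏ i ∈ s, x i ^ g' i with hβ
      have hLβ : L (τ (β : QB)) = 0 := by
        have h1 := hom_prod (fun y : QB => L (τ y)) (fun x y hx hy => by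
          rw [map_mul, hL.mul _ _ ((map_ne_zero τ).2 hx) ((map_ne_zero τ).2 hy)]) s x g'
        exact h1.trans hg1
      have hβ1 : ‖τ (β : QB)‖ = 1 := by
        have h1 : ∀ r : Finset {α : QB // ‖τ α‖ = 1},
            ‖τ ((∏ i ∈ r, x i ^ g' i : QBˣ) : QB)‖ = 1 := by
          intro r
          induction r using Finset.induction_on with
          | empty => simp
          | insert i r hi ih2 =>
            rw [Finset.prod_insert hi, Units.val_mul, map_mul, norm_mul, ih2, mul_one,
              Units.val_zpow_eq_zpow_val, map_zpow₀, norm_zpow]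
            have h2 : ‖τ ((x i : QBˣ) : QB)‖ = 1 := i.2
            rw [h2, one_zpow]
        exact h1 s
      obtain ⟨M, hM, hM1⟩ := exists_pow_one hL (nearU τ _ hβ1) hLβ
      have hβM : β ^ M = 1 := by
        apply Units.ext
        apply τ.injective
        rw [Units.val_pow_eq_pow_val, map_pow, hM1, Units.val_one, map_one]
      have hvβ : v (β : QB) = 0 := by
        have h1 : (hom v hv β) ^ M = 1 := by rw [← map_pow, hβM, map_one]
        have h2 := congrArg Multiplicative.toAdd h1
        rw [toAdd_pow, toAdd_one] at h2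
        have h3 : M • v (β : QB) = 0 := h2
        rw [nsmul_eq_mul] at h3
        exact (mul_eq_zero.1 h3).resolve_left (by exact_mod_cast (by omega : M ≠ 0))
      have hvs : ∑ i ∈ s, (g' i : T) * v i = 0 := by
        have h1 := hom_prod v hv s x g'
        rw [← hβ, hvβ] at h1
        rw [h1]
        refine Finset.sum_congr rfl fun i _ => ?_
        rw [zsmul_eq_mul]
        rfl
      have hLs : ∑ i ∈ s, (g' i : ℂ_[2]) * L (τ i) = 0 := by
        rw [← hg1]
        refine Finset.sum_congr rfl fun i _ => ?_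
        rw [zsmul_eq_mul]
      have h1 := ih (s.erase j) (by rw [Finset.card_erase_of_mem hj, hs]; rfl)
        (fun i => (g' j : QB) * a i - a j * (g' i : QB)) (by
          have h2 : ∑ i ∈ s, τ ((g' j : QB) * a i - a j * (g' i : QB)) * L (τ i) = 0 := by
            have h3 : ∀ i ∈ s, τ ((g' j : QB) * a i - a j * (g' i : QB)) * L (τ i) =
                (g' j : ℂ_[2]) * (τ (a i) * L (τ i)) - τ (a j) * ((g' i : ℂ_[2]) * L (τ i)) := by
              intro i _
              rw [map_sub, map_mul, map_mul, map_intCast, map_intCast]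
              ring
            rw [Finset.sum_congr rfl h3, Finset.sum_sub_distrib, ← Finset.mul_sum,
              ← Finset.mul_sum, ha, hLs]
            ring
          rw [← Finset.add_sum_erase s _ hj] at h2
          have h3 : (g' j : QB) * a j - a j * (g' j : QB) = 0 := by ring
          rw [h3, map_zero, zero_mul, zero_add] at h2
          exact h2)
      have h2 : ∑ i ∈ s, σ ((g' j : QB) * a i - a j * (g' i : QB)) * v i = 0 := by
        rw [← Finset.add_sum_erase s _ hj, h1]
        have h3 : (g' j : QB) * a j - a j * (g' j : QB) = 0 := by ring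
        rw [h3, map_zero, zero_mul, zero_add]
      have h3 : ∀ i ∈ s, σ ((g' j : QB) * a i - a j * (g' i : QB)) * v i =
          (g' j : T) * (σ (a i) * v i) - σ (a j) * ((g' i : T) * v i) := by
        intro i _
        rw [map_sub, map_mul, map_mul, map_intCast, map_intCast]
        ring
      rw [Finset.sum_congr rfl h3, Finset.sum_sub_distrib, ← Finset.mul_sum,
        ← Finset.mul_sum, hvs, mul_zero, sub_zero] at h2
      exact (mul_eq_zero.1 h2).resolve_left (by exact_mod_cast hgj')

theorem t : S_BRV := by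
  classical
  intro L hL τ T _ _ σ v hv
  letI m1 : Module QB ℂ_[2] := Module.compHom ℂ_[2] τ
  letI m2 : Module QB T := Module.compHom T σ
  have s1 : ∀ (a : QB) (x : ℂ_[2]), a • x = τ a * x := fun a x => rfl
  have s2 : ∀ (a : QB) (x : T), a • x = σ a * x := fun a x => rfl
  set W : Submodule QB (ℂ_[2] × T) :=
    Submodule.span QB (Set.range fun i : {α : QB // ‖τ α‖ = 1} => (L (τ i), v i)) with hW
  have hg : ∀ x : ℂ_[2] × T, x ∈ W → x.1 = 0 → x.2 = 0 := by
    intro x hx hx1
    rw [hW, Finsupp.mem_span_range_iff_exists_finsupp] at hx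
    obtain ⟨c, rfl⟩ := hx
    rw [Finsupp.sum, Prod.fst_sum] at hx1
    rw [Finsupp.sum, Prod.snd_sum]
    exact key hL τ σ v hv _ c.support rfl c hx1
  obtain ⟨V, hV⟩ := LinearMap.exists_extend W.toLinearPMap.toFun
  refine ⟨V, fun x y => map_add V x y, fun a x => ?_, fun α hα => ?_⟩
  · have h := V.map_smul a x
    exact h
  · have h1 : (L (τ α), v α) ∈ W := Submodule.subset_span ⟨⟨α, hα⟩, rfl⟩
    rw [← Submodule.toLinearPMap_graph_eq W hg, LinearPMap.mem_graph_iff] at h1
    obtain ⟨y, hy1, hy2⟩ := h1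
    have h2 := LinearMap.congr_fun hV y
    rw [LinearMap.comp_apply, Submodule.subtype_apply] at h2
    have hy1' : (y : ℂ_[2]) = L (τ α) := hy1
    have hy2' : W.toLinearPMap.toFun y = v α := hy2
    rw [← hy2', ← hy1']
    exact h2

end Pool.Agent.Y547.UE.B
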