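import Pool.Agent.Y875.UE.Stm
import Pool.Agent.Y145.DW.HD

/-!
# Universal Pepin test: Hasse-Davenport for the Jacobi sums
-/

set_option autoImplicit false

namespace Pool.Agent.Y547.UE

open Finset Pool.Agent.Y875.UE Pool.Agent.Y145.KS

/-- the character `χ ∘ Norm` -/
noncomputable def nch {F : Type} [Field F] [Fintype F] (E : Type) [Field E] [Fintype E]
    [Algebra F E] (χ : MulChar F ℂ) : MulChar E ℂ where
  toFun := fun s => χ (Algebra.norm F s)
  map_one' := by simp
  map_mul' := fun x y => by simp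
  map_nonunit' := fun a ha => by
    have h : a = 0 := by
      by_contra h
      exact ha (isUnit_iff_ne_zero.2 h)
    haveI : Module.Finite F E := Module.Finite.of_finite
    have h2 : Algebra.norm F a = 0 := by rw [h]; exact Algebra.norm_zero
    change χ (Algebra.norm F a) = 0
    rw [h2]
    exact χ.map_zero

section

variable {F : Type} [Field F] [Fintype F] (E : Type) [Field E] [Fintype E] [Algebra F E]

theorem nch_apply (χ : MulChar F ℂ) (s : E) : nch E χ s = χ (Algebra.norm F s) := rfl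

theorem nch_mul (χ φ : MulChar F ℂ) : nch E (χ * φ) = nch E χ * nch E φ := by
  ext x
  rfl

theorem nch_ne_one {χ : MulChar F ℂ} (hχ : χ ≠ 1) : nch E χ ≠ 1 := by
  classical
  intro h
  apply hχ
  ext a
  obtain ⟨x, hx⟩ := FiniteField.norm_surjective F E (a : F)
  have h1 : nch E χ x = (1 : MulChar E ℂ) x := by rw [h]
  have hx0 : x ≠ 0 := by
    rintro rfl
    haveI : Module.Finite F E := Module.Finite.of_finite
    rw [Algebra.norm_zero] at hx
    exact a.ne_zero hx.symm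
  rw [nch_apply, hx, MulChar.one_apply (isUnit_iff_ne_zero.2 hx0)] at h1
  rw [h1, MulChar.one_apply_coe]

theorem gs_nch (χ : MulChar F ℂ) {ψ : AddChar F ℂ} (hψ : ψ ≠ 1) :
    gaussSum (nch E χ) (psi ψ E) =
      (-1) ^ (Module.finrank F E - 1) * gaussSum χ ψ ^ Module.finrank F E := by
  classical
  exact Pool.Agent.Y145.DW.hasse_davenport χ hψ

theorem pm (n : ℕ) : ((-1 : ℂ)) ^ n = 1 ∨ ((-1 : ℂ)) ^ n = -1 := neg_one_pow_eq_or ℂ n

theorem js_nch {χ φ : MulChar F ℂ} (hχφ : χ * φ ≠ 1)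
    {ψ : AddChar F ℂ} (hψ : ψ ≠ 1) :
    jacobiSum (nch E χ) (nch E φ) = (-1) ^ (Module.finrank F E - 1) *
      jacobiSum χ φ ^ Module.finrank F E := by
  set n := Module.finrank F E with hn
  have h1 := jacobiSum_mul_nontrivial hχφ ψ
  have h2 := jacobiSum_mul_nontrivial (χ := nch E χ) (φ := nch E φ)
    (by rw [← nch_mul]; exact nch_ne_one E hχφ) (psi ψ E)
  rw [← nch_mul, gs_nch E _ hψ, gs_nch E _ hψ, gs_nch E _ hψ, ← hn] at h2
  have h3 : gaussSum (χ * φ) ψ ≠ 0 := by
    apply gaussSum_ne_zero_of_nontrivial _ hχφ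
    · exact AddChar.IsPrimitive.of_ne_one hψ
    · exact_mod_cast Fintype.card_ne_zero
  have h5 : ((-1 : ℂ)) ^ (n - 1) * (-1) ^ (n - 1) = 1 := by
    rw [← mul_pow]; simp
  have h6 : ((-1 : ℂ)) ^ (n - 1) ≠ 0 := pow_ne_zero _ (by norm_num)
  apply mul_left_cancel₀ (mul_ne_zero h6 (pow_ne_zero n h3))
  rw [h2]
  calc (-1) ^ (n - 1) * gaussSum χ ψ ^ n * ((-1) ^ (n - 1) * gaussSum φ ψ ^ n)
      = ((-1) ^ (n - 1) * (-1) ^ (n - 1)) * (gaussSum χ ψ * gaussSum φ ψ) ^ n := by
        rw [mul_pow]; ring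
    _ = (-1) ^ (n - 1) * (-1) ^ (n - 1) * (gaussSum (χ * φ) ψ * jacobiSum χ φ) ^ n := by
        rw [h1]
    _ = _ := by rw [mul_pow]; ring

theorem js_js {χ φ : MulChar E ℂ} (h1 : χ ≠ 1) (h2 : χ * φ ≠ 1) (h3 : φ ≠ 1)
    (hq : φ.IsQuadratic) {ψ : AddChar E ℂ} (hψ : ψ.IsPrimitive) :
    jacobiSum χ φ * jacobiSum (χ * φ) φ = φ (-1) * Fintype.card E := by
  have h4 : χ * φ * φ = χ := by rw [mul_assoc, ← pow_two, hq.sq_eq_one, mul_one]
  have h5 := jacobiSum_mul_nontrivial h2 ψ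
  have h6 := jacobiSum_mul_nontrivial (χ := χ * φ) (φ := φ) (by rw [h4]; exact h1) ψ
  rw [h4] at h6
  have hc : (Fintype.card E : ℂ) ≠ 0 := by exact_mod_cast Fintype.card_ne_zero
  have h7 := gaussSum_ne_zero_of_nontrivial hc h1 hψ
  have h8 := gaussSum_ne_zero_of_nontrivial hc h2 hψ
  have h9 := gaussSum_sq h3 hq hψ
  rw [← h9]
  apply mul_left_cancel₀ (mul_ne_zero h7 h8)
  linear_combination (gaussSum χ ψ * jacobiSum (χ * φ) φ) * h5 +
    gaussSum χ ψ * gaussSum φ ψ * h6

end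

section

variable {k : ℕ}

theorem sg_add (hk : 1 ≤ k) (A B : ZMod (2 ^ k)) : sg (A + B) = sg A * sg B := by
  have h0 : ∀ x : ℕ, ((-1 : ℤ)) ^ (x % 2 ^ k) = (-1) ^ x := by
    intro x
    conv_rhs => rw [← Nat.div_add_mod x (2 ^ k)]
    rw [pow_add, pow_mul, Even.neg_one_pow (Nat.even_pow.2 ⟨even_two, by omega⟩), one_pow, one_mul]
  unfold sg
  rw [ZMod.val_add, h0, pow_add]

theorem sg_zero : sg (0 : ZMod (2 ^ k)) = 1 := by
  unfold sg
  rw [ZMod.val_zero, pow_zero]

theorem sg_one (hk : 1 ≤ k) : sg (1 : ZMod (2 ^ k)) = -1 := by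
  unfold sg
  rw [ZMod.val_one_eq_one_mod, Nat.mod_eq_of_lt (Nat.one_lt_two_pow (by omega)), pow_one]

variable {E : Type} [Field E] {z : E} {l : E → ZMod (2 ^ k)}

theorem l_one (hl : IsIdx k z l) : l 1 = 0 := by
  have h := hl.mul 1 1 one_ne_zero one_ne_zero
  rw [mul_one] at h
  exact left_eq_add.1 h

theorem sg_pow (hk : 1 ≤ k) (hl : IsIdx k z l) {x : E} (hx : x ≠ 0) (n : ℕ) :
    sg (l (x ^ n)) = sg (l x) ^ n := by
  induction n with
  | zero => rw [pow_zero, pow_zero, l_one hl, sg_zero]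
  | succ n ih => rw [pow_succ, hl.mul _ _ (pow_ne_zero n hx) hx, sg_add hk, ih, pow_succ]

theorem sg_eq {q : ℕ} [Fact q.Prime] (hq : q ≠ 2) (hk : 1 ≤ k) [Fintype E] [Algebra (ZMod q) E]
    (hl : IsIdx k z l) (hz : z ≠ 0) (s : E) (hs : s ≠ 0) :
    sg (l s) = quadraticChar (ZMod q) (Algebra.norm (ZMod q) s) := by
  classical
  obtain ⟨g, hg⟩ := IsCyclic.exists_monoid_generator (α := Eˣ)
  have hg' : ∀ x : E, x ≠ 0 → ∃ n : ℕ, (g : E) ^ n = x := by
    intro x hx
    obtain ⟨n, hn⟩ := (Submonoid.mem_powers_iff _ _).1 (hg (Units.mk0 x hx))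
    refine ⟨n, ?_⟩
    have := congrArg (fun y : Eˣ => (y : E)) hn
    simpa using this
  have h1 : sg (l (g : E)) = -1 := by
    obtain ⟨n, hn⟩ := hg' z hz
    have h2 := sg_pow hk hl g.ne_zero n
    rw [hn, hl.gen, sg_one hk] at h2
    rcases neg_one_pow_eq_or ℤ (l (g : E)).val with h3 | h3
    · have h4 : sg (l (g : E)) = 1 := h3
      rw [h4, one_pow] at h2
      norm_num at h2
    · exact h3
  have hF : ringChar (ZMod q) ≠ 2 := by rw [ZMod.ringChar_zmod_n]; exact hq
  have h5 : quadraticChar (ZMod q) (Algebra.norm (ZMod q) (g : E)) = -1 := by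
    obtain ⟨a, ha⟩ := quadraticChar_exists_neg_one' hF
    obtain ⟨x, hx⟩ := FiniteField.norm_surjective (ZMod q) E (a : ZMod q)
    have hx0 : x ≠ 0 := by
      rintro rfl
      haveI : Module.Finite (ZMod q) E := Module.Finite.of_finite
      rw [Algebra.norm_zero] at hx
      exact a.ne_zero hx.symm
    obtain ⟨n, hn⟩ := hg' x hx0
    rw [← hx, ← hn, map_pow, map_pow] at ha
    rcases quadraticChar_isQuadratic (ZMod q) (Algebra.norm (ZMod q) (g : E)) with h6 | h6 | h6
    · rw [h6] at ha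
      rcases Nat.eq_zero_or_pos n with h7 | h7
      · rw [h7, pow_zero] at ha; norm_num at ha
      · rw [zero_pow (by omega)] at ha; norm_num at ha
    · rw [h6, one_pow] at ha; norm_num at ha
    · exact h6
  obtain ⟨n, hn⟩ := hg' s hs
  rw [← hn, sg_pow hk hl g.ne_zero, h1, map_pow, map_pow, h5]

end

theorem js_sum {k : ℕ} {E : Type} [Field E] [Fintype E] {l : E → ZMod (2 ^ k)}
    (η : MulChar E ℂ) (hη : ∀ s : E, s ≠ 0 → ((sg (l s) : ℤ) : ℂ) = η s)
    {χ : MulChar E ℂ} (hχ : χ ≠ 1) (T : E → ℂ)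
    (hT : ∀ s, s ≠ 0 → s ≠ 1 → Odd (l (1 - s)).val → T s = χ s)
    (hT0 : ∀ s, ¬ (s ≠ 0 ∧ s ≠ 1 ∧ Odd (l (1 - s)).val) → T s = 0) :
    1 + 2 * ∑ s : E, T s = - jacobiSum χ η := by
  classical
  have h1 : ∀ s : E, 2 * T s + (if s = 1 then 1 else 0) = χ s - χ s * η (1 - s) := by
    intro s
    by_cases hs0 : s = 0
    · rw [hT0 s (fun h => h.1 hs0), hs0, if_neg zero_ne_one, χ.map_zero]; ring
    by_cases hs1 : s = 1
    · rw [hT0 s (fun h => h.2.1 hs1), hs1, if_pos rfl, map_one, sub_self, η.map_zero]; ring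
    have h2 : (1 - s) ≠ 0 := sub_ne_zero.2 (Ne.symm hs1)
    rw [if_neg hs1, ← hη _ h2]
    unfold sg
    by_cases ho : Odd (l (1 - s)).val
    · rw [hT s hs0 hs1 ho, ho.neg_one_pow]; push_cast; ring
    · rw [hT0 s (fun h => ho h.2.2), (Nat.not_odd_iff_even.1 ho).neg_one_pow]; push_cast; ring
  have h2 : ∑ s : E, (2 * T s + (if s = 1 then (1 : ℂ) else 0)) =
      ∑ s : E, (χ s - χ s * η (1 - s)) := sum_congr rfl fun s _ => h1 s
  rw [sum_add_distrib, ← mul_sum, sum_ite_eq' univ (1 : E), if_pos (mem_univ _), sum_sub_distrib,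
    MulChar.sum_eq_zero_of_ne_one hχ] at h2
  rw [add_comm, h2, jacobiSum, zero_sub]

theorem t : S_HD := by
  classical
  intro q e u k f M _ lev E _ _ _ hcard z hz l hl χ hχu hχ1 a b ha hb
  have hq2 : q ≠ 2 := by
    rintro rfl
    exact absurd lev.odd (by decide)
  have hF : ringChar (ZMod q) ≠ 2 := by rw [ZMod.ringChar_zmod_n]; exact hq2
  have hz0 : z ≠ 0 := by
    rintro rfl
    rw [zero_pow (pow_ne_zero _ two_ne_zero)] at hz
    exact absurd hz (by simp)
  have hk1 : 1 ≤ k := le_trans (by norm_num) lev.hk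
  haveI hQBalg : Algebra.IsAlgebraic ℚ QB := AlgebraicClosure.isAlgebraic ℚ
  set σ : QB →+* ℂ := ((IsAlgClosed.lift : QB →ₐ[ℚ] ℂ) : QB →+* ℂ) with hσ
  have hσi : Function.Injective σ := σ.injective
  set χ' : MulChar (ZMod q) ℂ := χ.ringHomComp σ with hχ'
  set η' : MulChar (ZMod q) ℂ := (eta q QB).ringHomComp σ with hη'
  have hη1 : quadraticChar (ZMod q) ≠ 1 := quadraticChar_ne_one hF
  have hηap : ∀ x, η' x = ((quadraticChar (ZMod q) x : ℤ) : ℂ) := by
    intro x
    rw [hη', MulChar.ringHomComp_apply, eta, MulChar.ringHomComp_apply]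
    simp
  have hη'1 : η' ≠ 1 := by
    intro h
    apply hη1
    ext x
    have h1 := hηap (x : ZMod q)
    rw [h, MulChar.one_apply_coe] at h1
    rw [MulChar.one_apply_coe]
    exact_mod_cast h1.symm
  have hη'q : η'.IsQuadratic := by
    intro x
    rw [hηap]
    rcases quadraticChar_isQuadratic (ZMod q) x with h | h | h
    · left; rw [h]; simp
    · right; left; rw [h]; simp
    · right; right; rw [h]; simp
  have hχ'1 : χ' ≠ 1 := (MulChar.ringHomComp_ne_one_iff hσi).2 hχ1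
  have hχ'u : χ' ^ u = 1 := by
    rw [hχ', MulChar.ringHomComp_pow, hχu, MulChar.ringHomComp_one]
  have hχη : χ' * η' ≠ 1 := by
    intro h
    have h1 : χ' = η' := by
      have h2 : η' * η' = 1 := by rw [← pow_two]; exact hη'q.sq_eq_one
      calc χ' = χ' * (η' * η') := by rw [h2, mul_one]
        _ = η' := by rw [← mul_assoc, h, one_mul]
    have h2 : η' ^ u = η' := by
      obtain ⟨m, hm⟩ := lev.hu
      rw [hm, pow_add, pow_mul, hη'q.sq_eq_one, one_pow, one_mul, pow_one]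
    rw [h1, h2] at hχ'u
    exact hη'1 hχ'u
  set ψ : AddChar (ZMod q) ℂ := ZMod.stdAddChar with hψ
  have hψ1 : ψ ≠ 1 := by
    intro h
    have h1 := ZMod.isPrimitive_stdAddChar q one_ne_zero
    apply h1
    rw [← hψ, h]
    simp
  have hfr : Module.finrank (ZMod q) E = f := by
    haveI : Module.Finite (ZMod q) E := Module.Finite.of_finite
    have h1 := Module.card_eq_pow_finrank (K := ZMod q) (V := E)
    rw [ZMod.card, hcard] at h1
    exact (Nat.pow_right_injective (Fact.out : q.Prime).two_le h1).symm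
  have hηE : ∀ s : E, s ≠ 0 → ((sg (l s) : ℤ) : ℂ) = nch E η' s := by
    intro s hs
    rw [nch_apply, hηap, sg_eq hq2 hk1 hl hz0 s hs]
  have hσa : 1 + 2 * σ a = - jacobiSum (nch E χ') (nch E η') := by
    rw [ha, map_sum]
    apply js_sum (l := l) (nch E η') hηE (nch_ne_one E hχ'1)
    · intro s h1 h2 h3
      rw [if_pos ⟨h1, h2, h3⟩]
      rfl
    · intro s h1
      rw [if_neg h1, map_zero]
  have hσb : 1 + 2 * σ b = - jacobiSum (nch E χ' * nch E η') (nch E η') := by
    rw [hb, map_sum]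
    apply js_sum (l := l) (nch E η') hηE (by rw [← nch_mul]; exact nch_ne_one E hχη)
    · intro s h1 h2 h3
      rw [if_pos ⟨h1, h2, h3⟩, map_mul, map_intCast, hηE s h1, mul_comm]
      rfl
    · intro s h1
      rw [if_neg h1, map_zero]
  have hJ : jacobiSum χ' η' = σ (jacobiSum χ (eta q QB)) := by
    rw [hχ', hη', jacobiSum_ringHomComp]
  constructor
  · have h1 := js_nch E hχη hψ1
    rw [hfr, hJ] at h1
    rw [h1] at hσa
    rcases neg_one_pow_eq_or ℂ (f - 1) with h2 | h2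
    · right
      apply hσi
      rw [h2, one_mul] at hσa
      rw [map_add, map_one, map_mul, map_ofNat, map_neg, map_pow]
      exact hσa
    · left
      apply hσi
      rw [h2, neg_mul, one_mul, neg_neg] at hσa
      rw [map_add, map_one, map_mul, map_ofNat, map_pow]
      exact hσa
  · have hq' : (nch E η').IsQuadratic := fun x => hη'q _
    have h1 := js_js E (nch_ne_one E hχ'1) (by rw [← nch_mul]; exact nch_ne_one E hχη)
      (nch_ne_one E hη'1) hq' (psi_isPrimitive hψ1 E)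
    have h2 : (1 + 2 * σ a) * (1 + 2 * σ b) = nch E η' (-1) * (q : ℂ) ^ f := by
      rw [hσa, hσb, neg_mul_neg, h1, hcard]
      push_cast
      ring
    rcases hq' (-1) with h3 | h3 | h3
    · exfalso
      have h4 : nch E η' (-1) * nch E η' (-1) = 1 := by rw [← map_mul]; simp
      rw [h3] at h4
      norm_num at h4
    · left
      apply hσi
      rw [h3, one_mul] at h2
      rw [map_mul, map_add, map_one, map_mul, map_ofNat, map_add, map_one, map_mul, map_ofNat,
        map_pow, map_natCast]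
      exact h2
    · right
      apply hσi
      rw [h3, neg_mul, one_mul] at h2
      rw [map_mul, map_add, map_one, map_mul, map_ofNat, map_add, map_one, map_mul, map_ofNat,
        map_neg, map_pow, map_natCast]
      exact h2

end Pool.Agent.Y547.UE
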